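import Pool.Agent.H1.NP.PCook
import Pool.Prelude.Def_F_458e953d

/-!
NP-hardness (many-one reductions and the class NP of the Prelude) from reductions on codes.
-/

namespace Pool.Agent.H68.NPH

open Pool.Agent.H1.NP Pool.Agent.H1.PNP

theorem manyOne {L M : N68a2faeb.DecisionProblem} {α : Type} {enc : α → List Bool}
    {Q : α → Prop} {f : List Bool → α} (hf : PolyOn (fun w => w) enc f)
    (hM : ∀ a, M (enc a) = true ↔ Q a) (h : ∀ x, L x = true ↔ Q (f x)) :
    N793a5b8e.ManyOneReducible L M := by
  refine ⟨fun x => enc (f x), isPolyTime_of (hf.congr (fun x => x) (fun _ => rfl)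
    (fun _ => rfl)), fun x => ?_⟩
  have h1 := (h x).trans (hM (f x)).symm
  exact Bool.eq_iff_iff.2 h1

end Pool.Agent.H68.NPH
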