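import Pool.Agent.H68.NPH.Base

/-!
Conditions and conditional generators of lists of pairs of numbers.
-/

namespace Pool.Agent.H68.NPH

open Pool.Agent.H1.NP Pool.Agent.H1.PNP Pool.Agent.H68.OQP

/-- conditions -/
inductive Cd : Type
  | ff : Cd
  | le (a b : Ex) : Cd
  | not (c : Cd) : Cd
  | or (c d : Cd) : Cd

/-- truth of a condition -/
def Cd.tv (l env : List ℕ) : Cd → Prop
  | .ff => False
  | .le a b => a.val l env ≤ b.val l env
  | .not c => ¬ c.tv l env
  | .or c d => c.tv l env ∨ d.tv l env

/-- conjunction -/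
def Cd.and (c d : Cd) : Cd := .not (.or (.not c) (.not d))

/-- equality -/
def Cd.eq (a b : Ex) : Cd := (Cd.le a b).and (.le b a)

/-- strict inequality -/
def Cd.lt (a b : Ex) : Cd := .not (.le b a)

/-- disjunction over a list -/
def Cd.any {α : Type} (L : List α) (c : α → Cd) : Cd := L.foldr (fun a d => .or (c a) d) .ff

/-- conjunction over a list -/
def Cd.all {α : Type} (L : List α) (c : α → Cd) : Cd := .not (Cd.any L (fun a => .not (c a)))

/-- a constant condition -/
def Cd.b (p : Bool) : Cd := if p then .not .ff else .ff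

variable {l env : List ℕ}

@[simp] theorem tv_ff : Cd.ff.tv l env ↔ False := Iff.rfl
@[simp] theorem tv_le {a b : Ex} : (Cd.le a b).tv l env ↔ a.val l env ≤ b.val l env := Iff.rfl
@[simp] theorem tv_not {c : Cd} : (Cd.not c).tv l env ↔ ¬ c.tv l env := Iff.rfl
@[simp] theorem tv_or {c d : Cd} : (Cd.or c d).tv l env ↔ c.tv l env ∨ d.tv l env := Iff.rfl

@[simp] theorem tv_and {c d : Cd} : (c.and d).tv l env ↔ c.tv l env ∧ d.tv l env := by
  simp only [Cd.and, tv_not, tv_or]
  tauto

@[simp] theorem tv_eq {a b : Ex} : (Cd.eq a b).tv l env ↔ a.val l env = b.val l env := by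
  simp only [Cd.eq, tv_and, tv_le]
  omega

@[simp] theorem tv_lt {a b : Ex} : (Cd.lt a b).tv l env ↔ a.val l env < b.val l env := by
  simp only [Cd.lt, tv_not, tv_le]
  omega

@[simp] theorem tv_any {α : Type} {L : List α} {c : α → Cd} :
    (Cd.any L c).tv l env ↔ ∃ a ∈ L, (c a).tv l env := by
  induction L with
  | nil => simp [Cd.any]
  | cons a L ih =>
    have : (Cd.any (a :: L) c).tv l env ↔ (c a).tv l env ∨ (Cd.any L c).tv l env := Iff.rfl
    rw [this, ih]
    simp

@[simp] theorem tv_all {α : Type} {L : List α} {c : α → Cd} :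
    (Cd.all L c).tv l env ↔ ∀ a ∈ L, (c a).tv l env := by
  simp only [Cd.all, tv_not, tv_any]
  push Not
  rfl

@[simp] theorem tv_b {p : Bool} : (Cd.b p).tv l env ↔ p = true := by
  cases p <;> simp [Cd.b]

/-- the branching generator of numbers -/
def Cd.ite : Cd → Lg → Lg → Lg
  | .ff, _, h => h
  | .le a b, g, h => .ifle a b g h
  | .not c, g, h => c.ite h g
  | .or c d, g, h => c.ite g (d.ite g h)

open Classical in
theorem Cd.ite_out (c : Cd) : ∀ (g h : Lg), (c.ite g h).out l env =
    if c.tv l env then g.out l env else h.out l env := by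
  induction c with
  | ff => intro g h; simp [Cd.ite]
  | le a b => intro g h; simp [Cd.ite, Lg.out]
  | not c ih =>
    intro g h
    simp only [Cd.ite, ih, tv_not]
    split_ifs <;> simp_all
  | or c d ihc ihd =>
    intro g h
    simp only [Cd.ite, ihc, ihd, tv_or]
    split_ifs <;> simp_all

/-- generators of lists of pairs of numbers -/
inductive Rg : Type
  | nil : Rg
  | pair (a b : Ex) : Rg
  | seq (g h : Rg) : Rg
  | cond (c : Cd) (g : Rg) : Rg
  | loop (e : Ex) (g : Rg) : Rg

open Classical in
/-- the list generated -/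
noncomputable def Rg.out (l : List ℕ) : List ℕ → Rg → List (ℕ × ℕ)
  | _, .nil => []
  | env, .pair a b => [(a.val l env, b.val l env)]
  | env, .seq g h => g.out l env ++ h.out l env
  | env, .cond c g => if c.tv l env then g.out l env else []
  | env, .loop e g => (List.range (e.val l env)).flatMap (fun i => g.out l (i :: env))

/-- the generator printing the flattened list -/
def Rg.toLg : Rg → Lg
  | .nil => .nil
  | .pair a b => .seq (.el a) (.el b)
  | .seq g h => .seq g.toLg h.toLg
  | .cond c g => c.ite g.toLg .nil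
  | .loop e g => .loop e g.toLg

theorem Rg.toLg_out (l : List ℕ) (g : Rg) : ∀ env, g.toLg.out l env =
    (g.out l env).flatMap (fun e => [e.1, e.2]) := by
  induction g with
  | nil => intro env; rfl
  | pair a b => intro env; simp [Rg.toLg, Lg.out, Rg.out]
  | seq g h ihg ihh =>
    intro env
    simp only [Rg.toLg, Lg.out, Rg.out, ihg, ihh, List.flatMap_append]
  | cond c g ih =>
    intro env
    simp only [Rg.toLg, Rg.out, Cd.ite_out, ih]
    split_ifs <;> rfl
  | loop e g ih =>
    intro env
    simp only [Rg.toLg, Lg.out, Rg.out, ih]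
    induction List.range (e.val l env) with
    | nil => rfl
    | cons i L ih2 => simp only [List.flatMap_cons, List.flatMap_append, ih2]

/-- generators indexed by a list -/
def Rg.many {α : Type} (L : List α) (g : α → Rg) : Rg := L.foldr (fun a h => .seq (g a) h) .nil

theorem Rg.mem_nil {x : ℕ × ℕ} : x ∈ Rg.out l env .nil ↔ False := by
  simp [Rg.out]

theorem Rg.mem_pair {a b : Ex} {x : ℕ × ℕ} :
    x ∈ Rg.out l env (.pair a b) ↔ x = (a.val l env, b.val l env) := by
  simp [Rg.out]

theorem Rg.mem_seq {g h : Rg} {x : ℕ × ℕ} :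
    x ∈ Rg.out l env (.seq g h) ↔ x ∈ Rg.out l env g ∨ x ∈ Rg.out l env h := by
  simp [Rg.out]

theorem Rg.mem_cond {c : Cd} {g : Rg} {x : ℕ × ℕ} :
    x ∈ Rg.out l env (.cond c g) ↔ c.tv l env ∧ x ∈ Rg.out l env g := by
  simp only [Rg.out]
  split_ifs with h <;> simp [h]

theorem Rg.mem_loop {e : Ex} {g : Rg} {x : ℕ × ℕ} :
    x ∈ Rg.out l env (.loop e g) ↔ ∃ i < e.val l env, x ∈ Rg.out l (i :: env) g := by
  simp [Rg.out, List.mem_flatMap]

theorem Rg.mem_many {α : Type} {L : List α} {g : α → Rg} {x : ℕ × ℕ} :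
    x ∈ Rg.out l env (Rg.many L g) ↔ ∃ a ∈ L, x ∈ Rg.out l env (g a) := by
  induction L with
  | nil => simp [Rg.many, Rg.out]
  | cons a L ih =>
    have : x ∈ Rg.out l env (Rg.many (a :: L) g) ↔
        x ∈ Rg.out l env (.seq (g a) (Rg.many L g)) := Iff.rfl
    rw [this, Rg.mem_seq, ih]
    simp

/-- a graph written by a generator -/
theorem polyOn_graph (N : Ex) (g : Rg) :
    PolyOn unary encG (fun l => (N.val l [], g.out l [])) :=
  (polyOn_lg (.seq (.el N) g.toLg)).congr (fun l => l) (fun _ => rfl) (fun l => by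
    simp only [Lg.out, Rg.toLg_out, encG]
    rfl)

end Pool.Agent.H68.NPH
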