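import Pool.Agent.H68.NPH.Prog
import Pool.Agent.H1.NP.PNP

/-!
Membership in NP (of the Prelude): generators with counting, and the parsing of pairs.
-/

namespace Pool.Agent.H68.NPH

open Pool.Agent.H1.NP Pool.Agent.H1.PNP Pool.Agent.H68.OQP

/-- branching for string generators -/
def Cd.iteG : Cd → Gn → Gn → Gn
  | .ff, _, h => h
  | .le a b, g, h => .ifle a b g h
  | .not c, g, h => c.iteG h g
  | .or c d, g, h => c.iteG g (d.iteG g h)

variable {l env : List ℕ}

open Classical in
theorem Cd.iteG_out (c : Cd) : ∀ (g h : Gn), (c.iteG g h).out l env =
    if c.tv l env then g.out l env else h.out l env := by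
  induction c with
  | ff => intro g h; simp [Cd.iteG]
  | le a b => intro g h; simp [Cd.iteG, Gn.out]
  | not c ih =>
    intro g h
    simp only [Cd.iteG, ih, tv_not]
    split_ifs <;> simp_all
  | or c d ihc ihd =>
    intro g h
    simp only [Cd.iteG, ihc, ihd, tv_or]
    split_ifs <;> simp_all

/-- generators of lists of numbers with counting -/
inductive Ng : Type
  | nil : Ng
  | el (e : Ex) : Ng
  | cnt (e : Ex) (c : Cd) : Ng
  | seq (g h : Ng) : Ng
  | cond (c : Cd) (g : Ng) : Ng
  | loop (e : Ex) (g : Ng) : Ng

open Classical in
/-- the list generated -/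
noncomputable def Ng.out (l : List ℕ) : List ℕ → Ng → List ℕ
  | _, .nil => []
  | env, .el e => [e.val l env]
  | env, .cnt e c => [((List.range (e.val l env)).filter (fun i => c.tv l (i :: env))).length]
  | env, .seq g h => g.out l env ++ h.out l env
  | env, .cond c g => if c.tv l env then g.out l env else []
  | env, .loop e g => (List.range (e.val l env)).flatMap (fun i => g.out l (i :: env))

/-- the string generator -/
def Ng.toGn : Ng → Gn
  | .nil => .nil
  | .el e => .seq (.un e) (.bit false)
  | .cnt e c => .seq (.loop e (c.iteG (.bit true) .nil)) (.bit false)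
  | .seq g h => .seq g.toGn h.toGn
  | .cond c g => c.iteG g.toGn .nil
  | .loop e g => .loop e g.toGn

theorem Ng.toGn_out (l : List ℕ) (g : Ng) : ∀ env, g.toGn.out l env = unary (g.out l env) := by
  classical
  induction g with
  | nil => intro env; rfl
  | el e => intro env; simp [Ng.toGn, Gn.out, Ng.out, unary]
  | cnt e c =>
    intro env
    simp only [Ng.toGn, Gn.out, Ng.out, Cd.iteG_out]
    have : ∀ L : List ℕ, L.flatMap (fun i => if c.tv l (i :: env) then [true] else []) =
        List.replicate (L.filter (fun i => c.tv l (i :: env))).length true := by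
      intro L
      induction L with
      | nil => rfl
      | cons a L ih =>
        rw [List.flatMap_cons, ih, List.filter_cons]
        by_cases h : c.tv l (a :: env)
        · simp [h, List.replicate_succ]
        · simp [h]
    rw [this]
    simp [unary]
  | seq g h ihg ihh =>
    intro env
    simp only [Ng.toGn, Gn.out, Ng.out, ihg, ihh, unary, List.flatMap_append]
  | cond c g ih =>
    intro env
    simp only [Ng.toGn, Cd.iteG_out, Ng.out, ih, Gn.out]
    split_ifs <;> rfl
  | loop e g ih =>
    intro env
    simp only [Ng.toGn, Gn.out, Ng.out, ih]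
    induction List.range (e.val l env) with
    | nil => rfl
    | cons i L ih2 =>
      rw [List.flatMap_cons, List.flatMap_cons, ih2, Pool.Agent.H1.NP.unary_append]

theorem polyOn_ng (g : Ng) : PolyOn unary unary (fun l => g.out l []) :=
  (polyOn_gen g.toGn).congr (fun l => l) (fun _ => rfl) (fun l => Ng.toGn_out l g [])

/-- entries of uniform concatenations -/
theorem getD_flatMap {α : Type} {w : ℕ} {f : α → List ℕ} (hf : ∀ a, (f a).length = w) :
    ∀ (L : List α) (i : ℕ) (hi : i < L.length) (j : ℕ), j < w →
    (L.flatMap f).getD (w * i + j) 0 = (f L[i]).getD j 0 := by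
  intro L
  induction L with
  | nil => intro i hi; simp at hi
  | cons a L ih =>
    intro i hi j hj
    cases i with
    | zero =>
      rw [List.flatMap_cons, Nat.mul_zero, Nat.zero_add, List.getD_append _ _ _ _ (by
        rw [hf]; exact hj)]
      rfl
    | succ i =>
      have hi' : i < L.length := by simpa using hi
      rw [List.flatMap_cons, List.getD_append_right _ _ _ _ (by rw [hf, Nat.mul_succ]; omega), hf]
      have e : w * (i + 1) + j - w = w * i + j := by rw [Nat.mul_succ]; omega
      rw [e, ih i hi' j hj]
      rfl

/-- the numbers of a pair of strings -/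
def prs (x w : List Bool) : List ℕ :=
  x.length :: (x.map Bool.toNat ++ w.length :: w.map Bool.toNat)

/-- the code of a pair -/
def zz (x w : List Bool) : List Bool :=
  (N487b59b3.bitEncode : List Bool × List Bool → List Bool) (x, w)

/-- the block of a bit in the first component -/
def b6 (b : Bool) : List Bool := [true, true, true, b, true, false]

theorem zz_eq (x w : List Bool) : zz x w = x.flatMap b6 ++ (false :: w.flatMap blk3) := by
  have h1 : zz x w = N487b59b3.delimit (N487b59b3.bitEncode x) ++ N487b59b3.bitEncode w := rfl
  rw [h1, bitEncode_list, bitEncode_list]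
  clear h1
  induction x with
  | nil => rfl
  | cons b x ih =>
    rw [List.flatMap_cons, List.flatMap_cons, List.append_assoc, ← ih]
    rfl

theorem zz_len (x w : List Bool) : (zz x w).length = 6 * x.length + 1 + 3 * w.length := by
  rw [zz_eq, List.length_append, List.length_cons, List.length_flatMap, List.length_flatMap]
  have e1 : (x.map (fun b => (b6 b).length)).sum = 6 * x.length := by
    induction x with
    | nil => rfl
    | cons b x ih => simp only [List.map_cons, List.sum_cons, ih, List.length_cons]; simp [b6]; ring
  have e2 : (w.map (fun b => (blk3 b).length)).sum = 3 * w.length := by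
    induction w with
    | nil => rfl
    | cons b x ih =>
      simp only [List.map_cons, List.sum_cons, ih, List.length_cons]; simp [blk3]; ring
  rw [e1, e2]
  ring

/-- the numbers of the code -/
def zn (x w : List Bool) : List ℕ := (zz x w).map Bool.toNat

theorem zn_eq (x w : List Bool) : zn x w = x.flatMap (fun b => (b6 b).map Bool.toNat) ++
    (0 :: w.flatMap (fun b => (blk3 b).map Bool.toNat)) := by
  unfold zn
  rw [zz_eq, List.map_append, List.map_flatMap, List.map_cons, List.map_flatMap]
  rfl

theorem zn_len (x w : List Bool) : (zn x w).length = 6 * x.length + 1 + 3 * w.length := by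
  unfold zn
  rw [List.length_map, zz_len]

theorem len6 (x : List Bool) : (x.flatMap (fun b => (b6 b).map Bool.toNat)).length =
    6 * x.length := by
  rw [List.length_flatMap]
  induction x with
  | nil => rfl
  | cons b x ih => simp only [List.map_cons, List.sum_cons, ih, List.length_cons]; simp [b6]; ring

theorem zn_get6 {x w : List Bool} {i j : ℕ} (hi : i < x.length) (hj : j < 6) :
    (zn x w).getD (6 * i + j) 0 = ((b6 x[i]).map Bool.toNat).getD j 0 := by
  rw [zn_eq, List.getD_append _ _ _ _ (by rw [len6]; omega)]
  exact getD_flatMap (w := 6) (fun a => rfl) x i hi j hj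

theorem zn_mid {x w : List Bool} : (zn x w).getD (6 * x.length) 0 = 0 := by
  rw [zn_eq, List.getD_append_right _ _ _ _ (by rw [len6]), len6]
  simp

theorem zn_get3 {x w : List Bool} {i : ℕ} (hi : i < w.length) :
    (zn x w).getD (6 * x.length + 2 + 3 * i) 0 = w[i].toNat := by
  rw [zn_eq, List.getD_append_right _ _ _ _ (by rw [len6]; omega), len6]
  have e : 6 * x.length + 2 + 3 * i - 6 * x.length = (3 * i + 1) + 1 := by omega
  rw [e, List.getD_cons_succ, getD_flatMap (w := 3) (fun a => rfl) w i hi 1 (by omega)]
  rfl

theorem map_range_getD (L : List ℕ) : (List.range L.length).map (fun i => L.getD i 0) = L := by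
  refine List.ext_getElem (by simp) (fun i h1 h2 => ?_)
  simp [List.getD_eq_getElem?_getD, h2]

/-- number of entries -/
def eN : Ex := .inp (.con 0)

/-- first pass: count the zeros at positions divisible by six -/
def ps1 : Ng := .seq (.el eN) (.seq
  (.loop eN (.cnt (.add (.var 0) (.con 1)) (Cd.eq (.inp (.add (.con 1) (.mul (.con 6) (.var 0))))
    (.con 0))))
  (.loop eN (.el (.inp (.add (.con 1) (.var 0))))))

/-- second pass: the length of the first string -/
def ps2 : Ng := .seq (.el eN) (.seq (.cnt eN (Cd.eq (.inp (.add (.con 1) (.var 0))) (.con 0)))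
  (.loop eN (.el (.inp (.add (.add (.con 1) eN) (.var 0))))))

/-- third pass: the bits -/
def ps3 : Ng := .seq (.el (.inp (.con 1)))
  (.seq (.loop (.inp (.con 1)) (.el (.inp (.add (.con 2) (.add (.mul (.con 6) (.var 0))
    (.con 3))))))
  (.seq (.cnt eN (Cd.le (.add (.add (.mul (.con 6) (.inp (.con 1))) (.mul (.con 3) (.var 0)))
    (.con 4)) eN))
  (.loop eN (.cond (Cd.le (.add (.add (.mul (.con 6) (.inp (.con 1))) (.mul (.con 3) (.var 0)))
    (.con 4)) eN) (.el (.inp (.add (.con 2) (.add (.add (.mul (.con 6) (.inp (.con 1)))
    (.con 2)) (.mul (.con 3) (.var 0))))))))))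

/-- number of zeros at positions divisible by six, up to the `i`-th one -/
noncomputable def cz (x w : List Bool) (i : ℕ) : ℕ :=
  ((List.range (i + 1)).filter (fun j => (zn x w).getD (6 * j) 0 = 0)).length

theorem cz_zero {x w : List Bool} {i : ℕ} : cz x w i = 0 ↔ i < x.length := by
  unfold cz
  rw [List.length_eq_zero_iff, List.filter_eq_nil_iff]
  constructor
  · intro h
    by_contra hx
    have := h x.length (List.mem_range.2 (by omega))
    rw [zn_mid] at this
    simp at this
  · intro hi j hj
    have hj' := List.mem_range.1 hj
    have := zn_get6 (x := x) (w := w) (i := j) (j := 0) (by omega) (by omega)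
    rw [Nat.add_zero] at this
    rw [this]
    simp [b6]

theorem flatMap_sing {α β : Type} (L : List α) (f : α → β) : L.flatMap (fun i => [f i]) =
    L.map f := by
  induction L with
  | nil => rfl
  | cons a L ih => simp [ih]

theorem ps1_out (x w : List Bool) : ps1.out (bits (zz x w)) [] =
    (zz x w).length :: ((List.range (zz x w).length).map (cz x w) ++ zn x w) := by
  classical
  have e0 : ∀ env, eN.val (bits (zz x w)) env = (zz x w).length := fun _ => rfl
  have e1 : ∀ a, (bits (zz x w)).getD (1 + a) 0 = (zn x w).getD a 0 := by
    intro a
    rw [Nat.add_comm]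
    rfl
  simp only [ps1, Ng.out, e0, tv_eq, Ex.val, List.getD_cons_zero, e1, List.singleton_append,
    flatMap_sing]
  congr 2
  have := map_range_getD (zn x w)
  rwa [show (zn x w).length = (zz x w).length by simp [zn]] at this

theorem count_lt {N X : ℕ} (h : X ≤ N) (p : ℕ → Prop) [DecidablePred p]
    (hp : ∀ i < N, (p i ↔ i < X)) : ((List.range N).filter (fun i => p i)).length = X := by
  have h1 : (List.range N).filter (fun i => decide (p i)) =
      (List.range N).filter (fun i => decide (i < X)) := by
    refine List.filter_congr fun i hi => ?_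
    simp [hp i (List.mem_range.1 hi)]
  rw [h1]
  clear h1 hp
  induction N with
  | zero =>
    obtain rfl : X = 0 := by omega
    rfl
  | succ N ih =>
    rw [List.range_succ, List.filter_append, List.length_append]
    rcases Nat.lt_or_ge N X with hX | hX
    · obtain rfl : X = N + 1 := by omega
      have : (List.range N).filter (fun i => decide (i < N + 1)) = List.range N := by
        refine List.filter_eq_self.2 fun i hi => ?_
        have := List.mem_range.1 hi
        simp
        omega
      rw [this]
      simp
    · rw [ih hX]
      simp
      omega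

theorem ps2_out (x w : List Bool) : ps2.out ((zz x w).length ::
    ((List.range (zz x w).length).map (cz x w) ++ zn x w)) [] =
    (zz x w).length :: x.length :: zn x w := by
  classical
  set L := (zz x w).length :: ((List.range (zz x w).length).map (cz x w) ++ zn x w) with hL
  have e0 : ∀ env, eN.val L env = (zz x w).length := fun _ => rfl
  have hl := zz_len x w
  have e1 : ∀ a < (zz x w).length, L.getD (1 + a) 0 = cz x w a := by
    intro a ha
    rw [hL, Nat.add_comm, List.getD_cons_succ, List.getD_append _ _ _ _ (by simpa using ha)]
    simp [List.getD_eq_getElem?_getD, ha]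
  have e2 : ∀ a, L.getD (1 + (zz x w).length + a) 0 = (zn x w).getD a 0 := by
    intro a
    rw [hL, show 1 + (zz x w).length + a = ((zz x w).length + a) + 1 by omega,
      List.getD_cons_succ, List.getD_append_right _ _ _ _ (by simp)]
    congr 1
    simp
  simp only [ps2, Ng.out, e0, tv_eq, Ex.val, List.getD_cons_zero, e2, List.singleton_append,
    flatMap_sing]
  congr 2
  · refine count_lt (by omega) _ ?_
    intro i hi
    rw [e1 i hi, cz_zero]
  · have := map_range_getD (zn x w)
    rwa [show (zn x w).length = (zz x w).length by simp [zn]] at this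

theorem flatMap_cond {β : Type} (N X : ℕ) (h : X ≤ N) (p : ℕ → Prop) [DecidablePred p]
    (hp : ∀ i < N, (p i ↔ i < X)) (f : ℕ → β) :
    (List.range N).flatMap (fun i => if p i then [f i] else []) = (List.range X).map f := by
  have h1 : (List.range N).flatMap (fun i => if p i then [f i] else []) =
      (List.range N).flatMap (fun i => if i < X then [f i] else []) := by
    refine List.flatMap_congr fun i hi => ?_
    have := hp i (List.mem_range.1 hi)
    by_cases h : p i
    · rw [if_pos h, if_pos (this.1 h)]
    · rw [if_neg h, if_neg (fun h' => h (this.2 h'))]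
  rw [h1]
  clear h1 hp
  induction N with
  | zero =>
    obtain rfl : X = 0 := by omega
    rfl
  | succ N ih =>
    rw [List.range_succ, List.flatMap_append]
    rcases Nat.lt_or_ge N X with hX | hX
    · obtain rfl : X = N + 1 := by omega
      have : (List.range N).flatMap (fun i => if i < N + 1 then [f i] else []) =
          (List.range N).map f := by
        rw [← flatMap_sing]
        refine List.flatMap_congr fun i hi => ?_
        have := List.mem_range.1 hi
        rw [if_pos (by omega)]
      rw [this, List.range_succ, List.map_append]
      simp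
    · rw [ih hX]
      simp
      omega

theorem ps3_out (x w : List Bool) : ps3.out ((zz x w).length :: x.length :: zn x w) [] =
    prs x w := by
  classical
  set L := (zz x w).length :: x.length :: zn x w with hL
  have e0 : ∀ env, eN.val L env = (zz x w).length := fun _ => rfl
  have e0' : L.getD 1 0 = x.length := rfl
  have hl := zz_len x w
  have e2 : ∀ a, L.getD (2 + a) 0 = (zn x w).getD a 0 := by
    intro a
    rw [Nat.add_comm]
    rfl
  simp only [ps3, Ng.out, e0, tv_le, Ex.val, List.getD_cons_zero, e2, e0',
    List.singleton_append, flatMap_sing]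
  unfold prs
  congr 2
  · refine List.ext_getElem (by simp) (fun i h1 h2 => ?_)
    have hi : i < x.length := by simpa using h1
    rw [List.getElem_map, List.getElem_range, zn_get6 hi (by omega), List.getElem_map]
    rfl
  · congr 1
    · refine count_lt (by omega) _ ?_
      intro i hi
      omega
    · rw [flatMap_cond (zz x w).length w.length (by omega) _ (fun i hi => by omega)]
      refine List.ext_getElem (by simp) (fun i h1 h2 => ?_)
      have hi : i < w.length := by simpa using h1
      rw [List.getElem_map, List.getElem_range, zn_get3 hi, List.getElem_map]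

/-- a pair of strings is parsed in polynomial time -/
theorem polyOn_prs : PolyOn (N487b59b3.bitEncode : List Bool × List Bool → List Bool) unary
    (fun q => prs q.1 q.2) := by
  have h := ((polyOn_raw.comp (polyOn_ng ps1)).comp (polyOn_ng ps2)).comp (polyOn_ng ps3)
  refine h.congr (fun q => zz q.1 q.2) (fun q => rfl) (fun q => ?_)
  rw [ps1_out, ps2_out, ps3_out]

/-- membership in NP by a polynomial verification of the numbers of a pair of strings -/
theorem mem_NP {L : N68a2faeb.DecisionProblem} (p : Polynomial ℕ) {f : List ℕ → Bool}
    (hf : PolyOn unary (fun b : Bool => [b]) f)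
    (h : ∀ x, L x = true ↔ ∃ w : List Bool, w.length ≤ p.eval x.length ∧
      f (prs x w) = true) : L ∈ N68a2faeb.NP := by
  refine ⟨p, fun q => f (prs q.1 q.2), ?_, fun x => h x⟩
  exact ((polyOn_prs.comp hf).congr (fun q => q) (fun _ => rfl) (fun _ => rfl)).tm

/-- decoding of unary numbers, closing the last one -/
def dec : List Bool → List ℕ
  | [] => [0]
  | false :: w => 0 :: dec w
  | true :: w => ((dec w).getD 0 0 + 1) :: (dec w).tail

theorem dec_ne (w : List Bool) : dec w ≠ [] := by
  cases w with
  | nil => simp [dec]
  | cons b w => cases b <;> simp [dec]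

theorem unary_dec (w : List Bool) : unary (dec w) = w ++ [false] := by
  induction w with
  | nil => rfl
  | cons b w ih =>
    cases b with
    | false =>
      simp only [dec, unary_cons', ih]
      rfl
    | true =>
      have hne := dec_ne w
      obtain ⟨a, r, h⟩ := List.exists_cons_of_ne_nil hne
      rw [h] at ih
      simp only [dec, h, List.getD_cons_zero, List.tail_cons]
      rw [unary_cons'] at ih ⊢
      rw [List.replicate_succ, List.cons_append, ih]
      rfl

theorem dec_unary (l : List ℕ) (w : List Bool) : dec (unary l ++ w) = l ++ dec w := by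
  apply unary_inj
  rw [unary_dec, Pool.Agent.H1.NP.unary_append, unary_dec, List.append_assoc]

/-- the string is not a sequence of unary numbers -/
def bad (x : List Bool) : ℕ := if x.getLastD true then 1 else 0

/-- number of zeros -/
def zc (x : List Bool) : ℕ := (x.filter (fun b => !b)).length

/-- the numbers of a string and a certificate -/
def nums (x w : List Bool) : List ℕ := bad x :: zc x :: dec (x ++ w)

theorem getLastD_unary : ∀ (l : List ℕ), l ≠ [] → (unary l).getLastD true = false := by
  intro l hl
  obtain ⟨l', a, rfl⟩ := List.eq_nil_or_concat l |>.resolve_left hl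
  rw [List.concat_eq_append, Pool.Agent.H1.NP.unary_append]
  simp [unary, List.getLastD_eq_getLast?]

theorem bad_unary {l : List ℕ} (hl : l ≠ []) : bad (unary l) = 0 := by
  unfold bad
  rw [getLastD_unary l hl]
  rfl

theorem eq_unary_of_bad {x : List Bool} (h : bad x = 0) : ∃ l, l ≠ [] ∧ x = unary l := by
  unfold bad at h
  split_ifs at h with h'
  rcases List.eq_nil_or_concat x with rfl | ⟨y, b, rfl⟩
  · simp at h'
  · have hb : b = false := by
      cases b
      · rfl
      · simp [List.getLastD_eq_getLast?] at h'
    subst hb
    exact ⟨dec y, dec_ne y, by rw [unary_dec, List.concat_eq_append]⟩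

theorem zc_unary (l : List ℕ) : zc (unary l) = l.length := by
  unfold zc
  induction l with
  | nil => rfl
  | cons a l ih =>
    rw [unary_cons', List.filter_append, List.length_append, List.filter_cons]
    simp [ih]

/-- the generator of the numbers of a string and a certificate -/
def gnD : Gn :=
  .seq (.ifle (.inp (.con 0)) (.con 0) (.bit true)
    (.ifle (.con 1) (.inp (.inp (.con 0))) (.bit true) .nil))
  (.seq (.bit false)
  (.seq (.loop (.inp (.con 0)) (.ifle (.inp (.add (.con 1) (.var 0))) (.con 0) (.bit true) .nil))
  (.seq (.bit false)
  (.seq (.loop (.inp (.con 0)) (.ifle (.inp (.add (.con 1) (.var 0))) (.con 0) (.bit false)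
    (.bit true)))
  (.seq (.loop (.inp (.add (.con 1) (.inp (.con 0)))) (.ifle (.inp (.add (.add (.con 2)
    (.inp (.con 0))) (.var 0))) (.con 0) (.bit false) (.bit true)))
  (.bit false))))))

theorem flatMap_getElem (x : List Bool) : (List.range x.length).flatMap
    (fun i => if (x.getD i false).toNat ≤ 0 then [false] else [true]) = x := by
  have h : ∀ i ∈ List.range x.length, (if (x.getD i false).toNat ≤ 0 then [false] else [true]) =
      [x.getD i false] := by
    intro i _
    cases x.getD i false <;> simp
  rw [List.flatMap_congr h, flatMap_sing]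
  refine List.ext_getElem (by simp) (fun i h1 h2 => ?_)
  simp [List.getD_eq_getElem?_getD, h2]

theorem gnD_out (x w : List Bool) : gnD.out (prs x w) [] = unary (nums x w) := by
  have e0 : (prs x w).getD 0 0 = x.length := rfl
  have e1 : ∀ i < x.length, (prs x w).getD (1 + i) 0 = (x.getD i false).toNat := by
    intro i hi
    rw [Nat.add_comm]
    unfold prs
    rw [List.getD_cons_succ, List.getD_append _ _ _ _ (by simpa using hi)]
    simp [List.getD_eq_getElem?_getD, hi]
  have e2 : (prs x w).getD (1 + x.length) 0 = w.length := by
    rw [Nat.add_comm]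
    unfold prs
    rw [List.getD_cons_succ, List.getD_append_right _ _ _ _ (by simp)]
    simp
  have e3 : ∀ i < w.length, (prs x w).getD (2 + x.length + i) 0 = (w.getD i false).toNat := by
    intro i hi
    rw [show 2 + x.length + i = (x.length + (i + 1)) + 1 by omega]
    unfold prs
    rw [List.getD_cons_succ, List.getD_append_right _ _ _ _ (by simp)]
    rw [List.length_map, Nat.add_sub_cancel_left, List.getD_cons_succ]
    simp [List.getD_eq_getElem?_getD, hi]
  simp only [gnD, Gn.out, Ex.val, List.getD_cons_zero, e0, e2]
  have f1 : (List.range x.length).flatMap (fun i => if (prs x w).getD (1 + i) 0 ≤ 0 then [true]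
      else []) = List.replicate (zc x) true := by
    have : (List.range x.length).flatMap (fun i => if (prs x w).getD (1 + i) 0 ≤ 0 then [true]
        else []) = (List.range x.length).flatMap (fun i =>
        if (x.getD i false).toNat ≤ 0 then [true] else []) := by
      refine List.flatMap_congr fun i hi => ?_
      rw [e1 i (List.mem_range.1 hi)]
    rw [this]
    clear this e0 e1 e2 e3
    unfold zc
    induction x using List.reverseRecOn with
    | nil => rfl
    | append_singleton x b ih =>
      rw [List.length_append, List.length_singleton, List.range_succ, List.flatMap_append,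
        List.filter_append, List.length_append]
      have h : (List.range x.length).flatMap (fun i =>
          if ((x ++ [b]).getD i false).toNat ≤ 0 then [true] else []) =
          (List.range x.length).flatMap (fun i =>
          if (x.getD i false).toNat ≤ 0 then [true] else []) := by
        refine List.flatMap_congr fun i hi => ?_
        rw [List.getD_append _ _ _ _ (List.mem_range.1 hi)]
      rw [h, ih]
      have h2 : (x ++ [b]).getD x.length false = b := by simp [List.getD_eq_getElem?_getD]
      simp only [List.flatMap_cons, List.flatMap_nil, h2, List.append_nil]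
      cases b
      · simp [List.replicate_succ']
      · simp
  have f2 : (List.range x.length).flatMap (fun i => if (prs x w).getD (1 + i) 0 ≤ 0 then [false]
      else [true]) = x := by
    refine Eq.trans (List.flatMap_congr fun i hi => ?_) (flatMap_getElem x)
    rw [e1 i (List.mem_range.1 hi)]
  have f3 : (List.range w.length).flatMap (fun i => if (prs x w).getD (2 + x.length + i) 0 ≤ 0
      then [false] else [true]) = w := by
    refine Eq.trans (List.flatMap_congr fun i hi => ?_) (flatMap_getElem w)
    rw [e3 i (List.mem_range.1 hi)]
  have f0 : (if x.length ≤ 0 then [true] else if 1 ≤ (prs x w).getD x.length 0 then [true]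
      else []) = List.replicate (bad x) true := by
    rcases List.eq_nil_or_concat x with rfl | ⟨y, b, rfl⟩
    · simp [bad]
    · rw [List.concat_eq_append] at *
      have h := e1 y.length (by simp)
      rw [if_neg (by simp)]
      rw [show (y ++ [b]).length = 1 + y.length by simp; omega, h]
      have h2 : (y ++ [b]).getD y.length false = b := by simp [List.getD_eq_getElem?_getD]
      rw [h2]
      unfold bad
      cases b <;> simp [List.getLastD_eq_getLast?]
  rw [f0, f1, f2, f3]
  unfold nums
  rw [unary_cons', unary_cons', unary_dec]
  simp

theorem polyOn_nums : PolyOn (N487b59b3.bitEncode : List Bool × List Bool → List Bool) unary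
    (fun q => nums q.1 q.2) :=
  (polyOn_prs.comp (polyOn_gen gnD)).congr (fun q => q) (fun _ => rfl)
    (fun q => gnD_out q.1 q.2)

/-- membership in NP by a polynomial verification of numbers -/
theorem mem_NP_num {L : N68a2faeb.DecisionProblem} (p : Polynomial ℕ) {f : List ℕ → Bool}
    (hf : PolyOn unary (fun b : Bool => [b]) f)
    (h : ∀ x, L x = true ↔ ∃ w : List Bool, w.length ≤ p.eval x.length ∧
      f (nums x w) = true) : L ∈ N68a2faeb.NP := by
  refine ⟨p, fun q => f (nums q.1 q.2), ?_, fun x => h x⟩
  exact ((polyOn_nums.comp hf).congr (fun q => q) (fun _ => rfl) (fun _ => rfl)).tm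

/-- the first number is zero -/
theorem polyOn_check : PolyOn unary (fun b : Bool => [b]) (fun l => decide (l.getD 0 0 = 0)) :=
  (polyOn_gen (.ifle (.inp (.con 0)) (.con 0) (.bit true) (.bit false))).congr (fun l => l)
    (fun _ => rfl) (fun l => by
      simp only [Gn.out, Ex.val]
      by_cases h : l.getD 0 0 = 0
      · rw [if_pos (by omega), decide_eq_true h]
      · rw [if_neg (by omega), decide_eq_false h])

theorem Ng.mem_el {e : Ex} {a : ℕ} : a ∈ Ng.out l env (.el e) ↔ a = e.val l env := by
  simp [Ng.out]

theorem Ng.mem_seq {g h : Ng} {a : ℕ} :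
    a ∈ Ng.out l env (.seq g h) ↔ a ∈ Ng.out l env g ∨ a ∈ Ng.out l env h := by
  simp [Ng.out]

theorem Ng.mem_cond {c : Cd} {g : Ng} {a : ℕ} :
    a ∈ Ng.out l env (.cond c g) ↔ c.tv l env ∧ a ∈ Ng.out l env g := by
  simp only [Ng.out]
  split_ifs with h <;> simp [h]

theorem Ng.mem_loop {e : Ex} {g : Ng} {a : ℕ} :
    a ∈ Ng.out l env (.loop e g) ↔ ∃ i < e.val l env, a ∈ Ng.out l (i :: env) g := by
  simp [Ng.out, List.mem_flatMap]

theorem getD_zero_iff {L : List ℕ} (h : ∀ a ∈ L, a = 1) : L.getD 0 0 = 0 ↔ L = [] := by
  cases L with
  | nil => simp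
  | cons a L =>
    have := h a (by simp)
    simp [this]

end Pool.Agent.H68.NPH
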