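import Pool.Agent.H68.NPH.Prog

/-!
Satisfiability of formulas with clauses of three literals, as a list of numbers: the number of
variables, the number of clauses, then for each clause three pairs (variable, sign).
-/

namespace Pool.Agent.H68.NPH

open Pool.Agent.H1.NP Pool.Agent.H1.PNP Pool.Agent.H68.OQP

/-- the variable of the `i`-th literal of clause `j` -/
def vr (l : List ℕ) (j i : ℕ) : ℕ := l.getD (2 + 6 * j + 2 * i) 0

/-- the sign of the `i`-th literal of clause `j`: `1` for a positive literal -/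
def sg (l : List ℕ) (j i : ℕ) : ℕ := l.getD (3 + 6 * j + 2 * i) 0

/-- the formula is satisfiable -/
def Sat3 (l : List ℕ) : Prop :=
  ∃ τ : ℕ → Bool, ∀ j < l.getD 1 0, ∃ i < 3, τ (vr l j i) = decide (sg l j i = 1)

/-- well-formed formulas with at least two clauses -/
structure Ok3 (l : List ℕ) : Prop where
  two : 2 ≤ l.getD 1 0
  vlt : ∀ j < l.getD 1 0, ∀ i < 3, vr l j i < l.getD 0 0
  slt : ∀ j < l.getD 1 0, ∀ i < 3, sg l j i < 2

/-- clauses -/
abbrev C3 : Type := (ℕ × ℕ) × (ℕ × ℕ) × (ℕ × ℕ)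

/-- the numbers of a clause -/
def C3.l (c : C3) : List ℕ := [c.1.1, c.1.2, c.2.1.1, c.2.1.2, c.2.2.1, c.2.2.2]

/-- satisfied literals -/
def lt3 (τ : ℕ → Bool) (a : ℕ × ℕ) : Prop := τ a.1 = decide (a.2 = 1)

theorem flat3_getD (cls : List C3) : ∀ (j : ℕ) (hj : j < cls.length) (i : ℕ), i < 6 →
    (cls.flatMap C3.l).getD (6 * j + i) 0 = (C3.l cls[j]).getD i 0 := by
  induction cls with
  | nil => intro j hj; simp at hj
  | cons c cls ih =>
    intro j hj i hi
    cases j with
    | zero =>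
      simp only [List.flatMap_cons, Nat.mul_zero, Nat.zero_add, List.getElem_cons_zero]
      rw [List.getD_append]
      simpa [C3.l] using hi
    | succ j =>
      have := ih j (by simpa using hj) i hi
      simp only [List.flatMap_cons, List.getElem_cons_succ]
      rw [← this, List.getD_append_right]
      · congr 1
        simp only [C3.l, List.length_cons, List.length_nil]
        omega
      · simp only [C3.l, List.length_cons, List.length_nil]
        omega

section

variable {n : ℕ} {cls : List C3}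

theorem get3 {j : ℕ} (hj : j < cls.length) {i : ℕ} (hi : i < 6) :
    (n :: cls.length :: cls.flatMap C3.l).getD (2 + (6 * j + i)) 0 = (C3.l cls[j]).getD i 0 := by
  rw [show 2 + (6 * j + i) = (6 * j + i) + 1 + 1 by ring, List.getD_cons_succ,
    List.getD_cons_succ]
  exact flat3_getD cls j hj i hi

theorem vr_flat {j : ℕ} (hj : j < cls.length) {i : ℕ} (hi : i < 3) :
    vr (n :: cls.length :: cls.flatMap C3.l) j i = (C3.l cls[j]).getD (2 * i) 0 := by
  unfold vr
  rw [show 2 + 6 * j + 2 * i = 2 + (6 * j + 2 * i) by ring]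
  exact get3 hj (by omega)

theorem sg_flat {j : ℕ} (hj : j < cls.length) {i : ℕ} (hi : i < 3) :
    sg (n :: cls.length :: cls.flatMap C3.l) j i = (C3.l cls[j]).getD (2 * i + 1) 0 := by
  unfold sg
  rw [show 3 + 6 * j + 2 * i = 2 + (6 * j + (2 * i + 1)) by ring]
  exact get3 hj (by omega)

theorem sat3_flat : Sat3 (n :: cls.length :: cls.flatMap C3.l) ↔
    ∃ τ : ℕ → Bool, ∀ c ∈ cls, lt3 τ c.1 ∨ lt3 τ c.2.1 ∨ lt3 τ c.2.2 := by
  unfold Sat3
  refine exists_congr fun τ => ?_
  constructor
  · intro h c hc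
    obtain ⟨j, hj, rfl⟩ := List.getElem_of_mem hc
    obtain ⟨i, hi, h1⟩ := h j hj
    rw [vr_flat hj hi, sg_flat hj hi] at h1
    interval_cases i
    · exact Or.inl h1
    · exact Or.inr (Or.inl h1)
    · exact Or.inr (Or.inr h1)
  · intro h j hj
    have hj' : j < cls.length := hj
    rcases h _ (List.getElem_mem hj') with h1 | h1 | h1
    · exact ⟨0, by omega, by rw [vr_flat hj' (by omega), sg_flat hj' (by omega)]; exact h1⟩
    · exact ⟨1, by omega, by rw [vr_flat hj' (by omega), sg_flat hj' (by omega)]; exact h1⟩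
    · exact ⟨2, by omega, by rw [vr_flat hj' (by omega), sg_flat hj' (by omega)]; exact h1⟩

theorem ok3_flat (h2 : 2 ≤ cls.length) (h : ∀ c ∈ cls, (c.1.1 < n ∧ c.1.2 < 2) ∧
    (c.2.1.1 < n ∧ c.2.1.2 < 2) ∧ (c.2.2.1 < n ∧ c.2.2.2 < 2)) :
    Ok3 (n :: cls.length :: cls.flatMap C3.l) := by
  refine ⟨h2, ?_, ?_⟩
  · intro j hj i hi
    have hj' : j < cls.length := hj
    rw [vr_flat hj' hi]
    obtain ⟨⟨h1, h2⟩, ⟨h3, h4⟩, h5, h6⟩ := h _ (List.getElem_mem hj')
    interval_cases i
    exacts [h1, h3, h5]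
  · intro j hj i hi
    have hj' : j < cls.length := hj
    rw [sg_flat hj' hi]
    obtain ⟨⟨h1, h2⟩, ⟨h3, h4⟩, h5, h6⟩ := h _ (List.getElem_mem hj')
    interval_cases i
    exacts [h2, h4, h6]

end

/-! ### From five literals to three -/

section

variable (l : List ℕ)

/-- the `i`-th literal of clause `j` as a pair -/
def pr5 (j i : ℕ) : ℕ × ℕ := (cd5 l j i / 2, cd5 l j i % 2)

/-- the three clauses -/
def cl3 (j : ℕ) : List C3 :=
  [(pr5 l j 0, pr5 l j 1, (l.getD 0 0 + 2 * j, 1)),
    ((l.getD 0 0 + 2 * j, 0), pr5 l j 2, (l.getD 0 0 + 2 * j + 1, 1)),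
    ((l.getD 0 0 + 2 * j + 1, 0), pr5 l j 3, pr5 l j 4)]

/-- the dummy clause -/
def dum : C3 := ((l.getD 0 0 + 2 * l.getD 1 0, 1), (l.getD 0 0 + 2 * l.getD 1 0, 1),
  (l.getD 0 0 + 2 * l.getD 1 0, 1))

/-- the clauses -/
def cls3 : List C3 := (List.range (l.getD 1 0)).flatMap (cl3 l) ++ [dum l, dum l]

theorem cls3_length : (cls3 l).length = 3 * l.getD 1 0 + 2 := by
  unfold cls3
  rw [List.length_append, List.length_flatMap]
  simp [cl3]
  ring

theorem mem_cls3 {c : C3} : c ∈ cls3 l ↔ (∃ j < l.getD 1 0, c ∈ cl3 l j) ∨ c = dum l := by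
  simp [cls3, List.mem_flatMap]

/-- the formula -/
def l3 : List ℕ := (l.getD 0 0 + 2 * l.getD 1 0 + 1) :: (cls3 l).length :: (cls3 l).flatMap C3.l

theorem ok_cls3 (hl : Ok5 l) : Ok3 ((l.getD 0 0 + 2 * l.getD 1 0 + 1) :: (cls3 l).length ::
    (cls3 l).flatMap C3.l) := by
  refine ok3_flat (by rw [cls3_length]; omega) ?_
  intro c hc
  rw [mem_cls3] at hc
  have h5 : ∀ j < l.getD 1 0, ∀ i < 5, cd5 l j i / 2 < l.getD 0 0 := fun j hj i hi => by
    have := hl j hj i hi
    omega
  rcases hc with ⟨j, hj, hc⟩ | rfl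
  · simp only [cl3, List.mem_cons, List.not_mem_nil, or_false] at hc
    have e0 := h5 j hj 0 (by omega)
    have e1 := h5 j hj 1 (by omega)
    have e2 := h5 j hj 2 (by omega)
    have e3 := h5 j hj 3 (by omega)
    have e4 := h5 j hj 4 (by omega)
    rcases hc with rfl | rfl | rfl <;> simp only [pr5] <;> omega
  · simp only [dum]
    omega

theorem lit_iff (τ : ℕ → Bool) (c : ℕ) : lit τ c = true ↔ lt3 τ (c / 2, c % 2) := by
  unfold lit lt3
  simp

theorem lt3_pr5 (τ : ℕ → Bool) (j i : ℕ) : lt3 τ (pr5 l j i) ↔ lit τ (cd5 l j i) = true :=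
  (lit_iff τ _).symm

/-- extension of an assignment -/
def ext3 (τ : ℕ → Bool) (v : ℕ) : Bool :=
  if v < l.getD 0 0 then τ v
  else if v < l.getD 0 0 + 2 * l.getD 1 0 then
    !(lit τ (cd5 l ((v - l.getD 0 0) / 2) 0) || lit τ (cd5 l ((v - l.getD 0 0) / 2) 1) ||
      (decide ((v - l.getD 0 0) % 2 = 1) && lit τ (cd5 l ((v - l.getD 0 0) / 2) 2)))
  else true

theorem sat_cls3 (hl : Ok5 l) : Sat3 ((l.getD 0 0 + 2 * l.getD 1 0 + 1) :: (cls3 l).length ::
    (cls3 l).flatMap C3.l) ↔ Sat5 l := by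
  rw [sat3_flat]
  constructor
  · rintro ⟨τ, h⟩
    refine ⟨τ, fun j hj => ?_⟩
    have hm : ∀ c ∈ cl3 l j, lt3 τ c.1 ∨ lt3 τ c.2.1 ∨ lt3 τ c.2.2 := fun c hc =>
      h c ((mem_cls3 l).2 (Or.inl ⟨j, hj, hc⟩))
    by_contra hcon
    push Not at hcon
    have hn : ∀ i < 5, ¬ lt3 τ (pr5 l j i) := fun i hi h1 =>
      hcon i hi ((lt3_pr5 l τ j i).1 h1)
    have h1 := hm _ (List.mem_cons_self)
    have h2 := hm _ (List.mem_cons_of_mem _ (List.mem_cons_self))
    have h3 := hm _ (List.mem_cons_of_mem _ (List.mem_cons_of_mem _ (List.mem_cons_self)))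
    simp only at h1 h2 h3
    have e1 := (h1.resolve_left (hn 0 (by omega))).resolve_left (hn 1 (by omega))
    have e3 : lt3 τ (l.getD 0 0 + 2 * j + 1, 0) := by
      rcases h3 with h3 | h3 | h3
      · exact h3
      · exact absurd h3 (hn 3 (by omega))
      · exact absurd h3 (hn 4 (by omega))
    rcases h2 with h2 | h2 | h2
    · unfold lt3 at e1 h2
      rw [e1] at h2
      simp at h2
    · exact hn 2 (by omega) h2
    · unfold lt3 at e3 h2
      rw [e3] at h2
      simp at h2
  · rintro ⟨τ, h⟩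
    refine ⟨ext3 l τ, fun c hc => ?_⟩
    rcases (mem_cls3 l).1 hc with ⟨j, hj, hc⟩ | rfl
    · have hv : ∀ i < 5, (lt3 (ext3 l τ) (pr5 l j i) ↔ lit τ (cd5 l j i) = true) := by
        intro i hi
        have h1 : (pr5 l j i).1 < l.getD 0 0 := by
          have := hl j hj i hi
          simp only [pr5]
          omega
        rw [← lt3_pr5]
        unfold lt3 ext3
        rw [if_pos h1]
      have y1 : ext3 l τ (l.getD 0 0 + 2 * j) =
          !(lit τ (cd5 l j 0) || lit τ (cd5 l j 1)) := by
        unfold ext3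
        rw [if_neg (by omega), if_pos (by omega),
          show l.getD 0 0 + 2 * j - l.getD 0 0 = 2 * j by omega,
          show 2 * j / 2 = j by omega, show 2 * j % 2 = 0 by omega]
        simp
      have y2 : ext3 l τ (l.getD 0 0 + 2 * j + 1) =
          !(lit τ (cd5 l j 0) || lit τ (cd5 l j 1) || lit τ (cd5 l j 2)) := by
        unfold ext3
        rw [if_neg (by omega), if_pos (by omega),
          show l.getD 0 0 + 2 * j + 1 - l.getD 0 0 = 2 * j + 1 by omega,
          show (2 * j + 1) / 2 = j by omega, show (2 * j + 1) % 2 = 1 by omega]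
        simp
      obtain ⟨i, hi, h1⟩ := h j hj
      have z1 : ∀ b : Prop, ∀ v, (lt3 (ext3 l τ) (v, 1) ↔ ext3 l τ v = true) := by
        intro _ v; simp [lt3]
      have z0 : ∀ v, (lt3 (ext3 l τ) (v, 0) ↔ ext3 l τ v = false) := by
        intro v; simp [lt3]
      simp only [cl3, List.mem_cons, List.not_mem_nil, or_false] at hc
      have g0 := hv 0 (by omega)
      have g1 := hv 1 (by omega)
      have g2 := hv 2 (by omega)
      have g3 := hv 3 (by omega)
      have g4 := hv 4 (by omega)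
      rcases hc with rfl | rfl | rfl
      · simp only [g0, g1, z1 True, y1]
        cases lit τ (cd5 l j 0) <;> cases lit τ (cd5 l j 1) <;> simp
      · simp only [g2, z1 True, z0, y1, y2]
        cases lit τ (cd5 l j 0) <;> cases lit τ (cd5 l j 1) <;>
          cases lit τ (cd5 l j 2) <;> simp
      · simp only [g3, g4, z0, y2]
        interval_cases i <;> simp [h1]
    · refine Or.inl ?_
      simp only [dum, lt3, ext3]
      rw [if_neg (by omega), if_neg (by omega)]
      simp

end

/-! ### The generator -/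

/-- a literal of the clause given by the current loop -/
def ltG (i : ℕ) : Lg :=
  .loop xn (Cd.ite (.eq (.inp (.add (.con (2 + i)) (.mul (.con 5) (.var 1))))
      (.mul (.con 2) (.var 0))) (.seq (.el (.var 0)) (.el (.con 0)))
    (Cd.ite (.eq (.inp (.add (.con (2 + i)) (.mul (.con 5) (.var 1))))
      (.add (.mul (.con 2) (.var 0)) (.con 1))) (.seq (.el (.var 0)) (.el (.con 1))) .nil))

theorem flatMap_single {α : Type} (n t : ℕ) (ht : t < n) (f : ℕ → List α)
    (hf : ∀ i, i ≠ t → f i = []) : (List.range n).flatMap f = f t := by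
  induction n with
  | zero => omega
  | succ n ih =>
    rw [List.range_succ, List.flatMap_append, List.flatMap_cons, List.flatMap_nil,
      List.append_nil]
    by_cases h : t = n
    · subst h
      have : (List.range t).flatMap f = [] := by
        rw [List.flatMap_eq_nil_iff]
        intro i hi
        exact hf i (by have := List.mem_range.1 hi; omega)
      rw [this, List.nil_append]
    · rw [ih (by omega), hf n (Ne.symm h), List.append_nil]

theorem ltG_out {l : List ℕ} (hl : Ok5 l) {j i : ℕ} (hj : j < l.getD 1 0) (hi : i < 5) :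
    (ltG i).out l [j] = [(pr5 l j i).1, (pr5 l j i).2] := by
  have h1 := hl j hj i hi
  have hc : l.getD (2 + i + 5 * j) 0 = cd5 l j i := rfl
  simp only [ltG, Lg.out, Cd.ite_out, tv_eq, Ex.val, xn]
  have hlt : (pr5 l j i).1 < l.getD 0 0 := by simp only [pr5]; omega
  rw [flatMap_single _ (pr5 l j i).1 hlt]
  · simp only [List.getD_cons_zero, List.getD_cons_succ, hc, pr5]
    rcases Nat.mod_two_eq_zero_or_one (cd5 l j i) with h | h
    · rw [if_pos (by omega), h]; rfl
    · rw [if_neg (by omega), if_pos (by omega), h]; rfl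
  · intro t ht
    simp only [List.getD_cons_zero, List.getD_cons_succ, hc]
    simp only [pr5] at ht
    rw [if_neg (by omega), if_neg (by omega)]

/-- the generator of the formula -/
def satG : Lg :=
  .seq (.el (.add (.add xn (.mul (.con 2) xm)) (.con 1)))
    (.seq (.el (.add (.mul (.con 3) xm) (.con 2)))
      (.seq (.loop xm (.seq (ltG 0) (.seq (ltG 1) (.seq (.el (.add xn (.mul (.con 2) (.var 0))))
          (.seq (.el (.con 1)) (.seq (.el (.add xn (.mul (.con 2) (.var 0)))) (.seq (.el (.con 0))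
          (.seq (ltG 2) (.seq (.el (.add (.add xn (.mul (.con 2) (.var 0))) (.con 1)))
          (.seq (.el (.con 1)) (.seq (.el (.add (.add xn (.mul (.con 2) (.var 0))) (.con 1)))
          (.seq (.el (.con 0)) (.seq (ltG 3) (ltG 4))))))))))))))
        (.loop (.con 6) (.seq (.el (.add xn (.mul (.con 2) xm))) (.el (.con 1))))))

theorem satG_out {l : List ℕ} (hl : Ok5 l) : satG.out l [] =
    (l.getD 0 0 + 2 * l.getD 1 0 + 1) :: (cls3 l).length :: (cls3 l).flatMap C3.l := by
  rw [cls3_length]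
  have hx : ∀ env, xn.val l env = l.getD 0 0 := fun _ => rfl
  have hm : ∀ env, xm.val l env = l.getD 1 0 := fun _ => rfl
  have h1 : (List.range (l.getD 1 0)).flatMap (fun j => (cl3 l j).flatMap C3.l) =
      (List.range (l.getD 1 0)).flatMap (fun j => (ltG 0).out l [j] ++ ((ltG 1).out l [j] ++
        ([l.getD 0 0 + 2 * j] ++ ([1] ++ ([l.getD 0 0 + 2 * j] ++ ([0] ++ ((ltG 2).out l [j] ++
        ([l.getD 0 0 + 2 * j + 1] ++ ([1] ++ ([l.getD 0 0 + 2 * j + 1] ++ ([0] ++
        ((ltG 3).out l [j] ++ (ltG 4).out l [j])))))))))))) := by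
    refine List.flatMap_congr fun j hj => ?_
    have hj' := List.mem_range.1 hj
    rw [ltG_out hl hj' (by omega), ltG_out hl hj' (by omega), ltG_out hl hj' (by omega),
      ltG_out hl hj' (by omega), ltG_out hl hj' (by omega)]
    rfl
  simp only [satG, Lg.out, Ex.val, hx, hm, List.getD_cons_zero, cls3, List.flatMap_append,
    flatMap_flatMap', h1]
  rfl

/-- every language in NP reduces to satisfiability of formulas with clauses of three literals -/
theorem np_sat3 {L : N68a2faeb.DecisionProblem} (hL : L ∈ N68a2faeb.NP) :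
    ∃ F : List Bool → List ℕ, PolyOn (fun w => w) unary F ∧ (∀ x, Ok3 (F x)) ∧
      ∀ x, L x = true ↔ Sat3 (F x) := by
  obtain ⟨F, hF, hok, hsat⟩ := Pool.Agent.H1.PNP.cookLevin hL
  refine ⟨fun x => (l3 (F x)), ?_, ?_, ?_⟩
  · refine (hF.comp (polyOn_lg satG)).congr (fun x => x) (fun _ => rfl) (fun x => ?_)
    rw [satG_out (hok x)]
    rfl
  · intro x
    exact ok_cls3 _ (hok x)
  · intro x
    exact (hsat x).trans (sat_cls3 _ (hok x)).symm

end Pool.Agent.H68.NPH
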